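import Pool.Agent.helper8.GD.Spec

/-!
# GD, module KO: moments of `K ^ ω(8 n² - 1)`
-/

set_option autoImplicit false

namespace GD

open Finset

/-- among the subsets of size `j` of a set with at least `(i+1) j` elements there is one with small
product -/
lemma KO_pick (j : ℕ) : ∀ (i : ℕ) (S : Finset ℕ), (∀ l ∈ S, 1 ≤ l) → (i + 1) * j ≤ #S →
    ∃ T ⊆ S, #T = j ∧ (∏ l ∈ T, l) ^ (i + 1) ≤ ∏ l ∈ S, l := by
  intro i
  induction i with
  | zero =>
    intro S hS hc
    obtain ⟨T, hT, hTc⟩ := exists_subset_card_eq (s := S) (n := j) (by omega)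
    refine ⟨T, hT, hTc, ?_⟩
    rw [zero_add, pow_one]
    exact prod_le_prod_of_subset_of_one_le' hT fun l hl _ => hS l hl
  | succ i ih =>
    intro S hS hc
    have hc' : (i + 1) * j + j ≤ #S := by
      calc (i + 1) * j + j = (i + 1 + 1) * j := by ring
        _ ≤ #S := hc
    obtain ⟨T₁, hT₁, hT₁c⟩ := exists_subset_card_eq (s := S) (n := j) (by omega)
    obtain ⟨T₂, hT₂, hT₂c, hT₂p⟩ := ih (S \ T₁) (fun l hl => hS l (mem_sdiff.1 hl).1)
      (by rw [card_sdiff_of_subset hT₁]; omega)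
    have hsplit : (∏ l ∈ T₁, l) * ∏ l ∈ S \ T₁, l = ∏ l ∈ S, l := by
      rw [mul_comm]; exact prod_sdiff hT₁
    rcases le_total (∏ l ∈ T₁, l) (∏ l ∈ T₂, l) with h | h
    · refine ⟨T₁, hT₁, hT₁c, ?_⟩
      calc (∏ l ∈ T₁, l) ^ (i + 1 + 1) = (∏ l ∈ T₁, l) * (∏ l ∈ T₁, l) ^ (i + 1) := by ring
        _ ≤ (∏ l ∈ T₁, l) * (∏ l ∈ T₂, l) ^ (i + 1) :=
            Nat.mul_le_mul_left _ (Nat.pow_le_pow_left h _)
        _ ≤ (∏ l ∈ T₁, l) * ∏ l ∈ S \ T₁, l := Nat.mul_le_mul_left _ hT₂p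
        _ = ∏ l ∈ S, l := hsplit
    · refine ⟨T₂, hT₂.trans sdiff_subset, hT₂c, ?_⟩
      calc (∏ l ∈ T₂, l) ^ (i + 1 + 1) = (∏ l ∈ T₂, l) * (∏ l ∈ T₂, l) ^ (i + 1) := by ring
        _ ≤ (∏ l ∈ T₁, l) * (∏ l ∈ T₂, l) ^ (i + 1) := Nat.mul_le_mul_right _ h
        _ ≤ (∏ l ∈ T₁, l) * ∏ l ∈ S \ T₁, l := Nat.mul_le_mul_left _ hT₂p
        _ = ∏ l ∈ S, l := hsplit

/-- the sets of primes with product at most `X` -/
def KO_T (X : ℕ) : Finset (Finset ℕ) := (Ps X).powerset.filter fun T => pr T ≤ X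

lemma KO_T_prime {X : ℕ} {T : Finset ℕ} (h : T ∈ KO_T X) : ∀ p ∈ T, p.Prime := by
  intro p hp
  rw [KO_T, mem_filter, mem_powerset] at h
  exact (mem_filter.1 (h.1 hp)).2

lemma KO_pr_pos {T : Finset ℕ} (h : ∀ p ∈ T, p.Prime) : 0 < pr T :=
  prod_pos fun p hp => (h p hp).pos

/-- pointwise bound -/
lemma KO_point (K X n : ℕ) (hK : 1 ≤ K) (hX : 2 ≤ X) (hn : n ∈ Icc 1 X) :
    (K : ℝ) ^ (8 * n ^ 2 - 1).primeFactors.card ≤
      (K : ℝ) ^ 4 * ∑ T ∈ KO_T X with dv (pr T) n, ((K : ℝ) ^ 5) ^ #T := by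
  rw [mem_Icc] at hn
  have hn2 : 1 ≤ n ^ 2 := Nat.one_le_pow _ _ hn.1
  set m : ℕ := 8 * n ^ 2 - 1 with hm
  have hm0 : m ≠ 0 := by omega
  obtain ⟨T, hTS, hTc, hTp⟩ := KO_pick (m.primeFactors.card / 5) 4 m.primeFactors
    (fun l hl => (Nat.prime_of_mem_primeFactors hl).one_le) (by omega)
  have hdvd : pr T ∣ m := (prod_dvd_prod_of_subset _ _ _ hTS).trans (Nat.prod_primeFactors_dvd m)
  have hpos : 0 < pr T := KO_pr_pos fun p hp => Nat.prime_of_mem_primeFactors (hTS hp)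
  have hle : pr T ≤ X := by
    by_contra hlt
    push Not at hlt
    have h1 : (X + 1) ^ 5 ≤ (pr T) ^ 5 := Nat.pow_le_pow_left hlt 5
    have h2 : (pr T) ^ 5 ≤ m := hTp.trans (Nat.le_of_dvd (by omega) (Nat.prod_primeFactors_dvd m))
    have h3 : m ≤ 8 * X ^ 2 := by
      have : n ^ 2 ≤ X ^ 2 := Nat.pow_le_pow_left hn.2 2
      omega
    have h4 : 8 * X ^ 2 < (X + 1) ^ 5 := by
      have h5 : 27 ≤ (X + 1) ^ 3 := by
        have h6 : 3 ≤ X + 1 := by omega
        have h7 := Nat.pow_le_pow_left h6 3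
        simpa using h7
      have h8 : X ^ 2 ≤ (X + 1) ^ 2 := Nat.pow_le_pow_left (by omega) 2
      have h9 : 1 ≤ (X + 1) ^ 2 := Nat.one_le_pow _ _ (by omega)
      calc 8 * X ^ 2 ≤ 8 * (X + 1) ^ 2 := Nat.mul_le_mul_left _ h8
        _ < 27 * (X + 1) ^ 2 := by omega
        _ ≤ (X + 1) ^ 3 * (X + 1) ^ 2 := Nat.mul_le_mul_right _ h5
        _ = (X + 1) ^ 5 := by ring
    omega
  have hmem : T ∈ (KO_T X).filter fun T => dv (pr T) n := by
    rw [mem_filter, KO_T, mem_filter, mem_powerset]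
    refine ⟨⟨fun p hp => ?_, hle⟩, ?_⟩
    · rw [Ps, mem_filter, mem_Icc]
      have hpp := Nat.prime_of_mem_primeFactors (hTS hp)
      exact ⟨⟨hpp.one_le, (Nat.le_of_dvd hpos (dvd_prod_of_mem _ hp)).trans hle⟩, hpp⟩
    · exact ((Nat.modEq_iff_dvd' (by omega : 1 ≤ 8 * n ^ 2)).2 hdvd).symm
  have hKr : (1 : ℝ) ≤ K := by exact_mod_cast hK
  calc (K : ℝ) ^ m.primeFactors.card ≤ (K : ℝ) ^ (4 + 5 * #T) :=
        pow_le_pow_right₀ hKr (by rw [hTc]; omega)
    _ = (K : ℝ) ^ 4 * ((K : ℝ) ^ 5) ^ #T := by rw [pow_add, pow_mul]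
    _ ≤ (K : ℝ) ^ 4 * ∑ T ∈ KO_T X with dv (pr T) n, ((K : ℝ) ^ 5) ^ #T := by
        refine mul_le_mul_of_nonneg_left ?_ (by positivity)
        exact single_le_sum (f := fun T => ((K : ℝ) ^ 5) ^ #T) (fun _ _ => by positivity) hmem

/-- number of `n ≤ X` with `d ∣ 8 n² - 1` -/
lemma KO_count (d X : ℕ) (hd : 0 < d) :
    #((Icc 1 X).filter fun n => dv d n) ≤ (X / d + 1) * #((range d).filter fun n => dv d n) := by
  have hper : Function.Periodic (fun n => dv d n) d := by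
    intro n
    have h : 8 * (n + d) ^ 2 ≡ 8 * n ^ 2 [MOD d] := by
      have h1 : n + d ≡ n [MOD d] := by simp [Nat.ModEq]
      exact (h1.pow 2).mul_left 8
    simp only [eq_iff_iff]
    exact ⟨fun h' => h.symm.trans h', fun h' => h.trans h'⟩
  have hcount : d.count (fun n => dv d n) = #((range d).filter fun n => dv d n) :=
    Nat.count_eq_card_filter_range _ _
  have key : ∀ k : ℕ, #((Ico 1 (1 + k * d)).filter fun n => dv d n)
      = k * #((range d).filter fun n => dv d n) := by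
    intro k
    induction k with
    | zero => simp
    | succ k ih =>
      have hsplit : (Ico 1 (1 + (k + 1) * d)).filter (fun n => dv d n)
          = (Ico 1 (1 + k * d)).filter (fun n => dv d n)
            ∪ (Ico (1 + k * d) (1 + k * d + d)).filter (fun n => dv d n) := by
        rw [← filter_union, Ico_union_Ico_eq_Ico (by omega) (by omega)]
        congr 2
        ring
      have hdisj : Disjoint ((Ico 1 (1 + k * d)).filter (fun n => dv d n))
          ((Ico (1 + k * d) (1 + k * d + d)).filter (fun n => dv d n)) :=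
        disjoint_filter_filter (Ico_disjoint_Ico_consecutive _ _ _)
      rw [hsplit, card_union_of_disjoint hdisj, ih,
        Nat.filter_Ico_card_eq_of_periodic _ _ _ hper, hcount]
      ring
  rw [← key]
  refine card_le_card (filter_subset_filter _ fun n hn => ?_)
  rw [mem_Icc] at hn
  rw [mem_Ico]
  have := Nat.lt_div_mul_add (a := X) hd
  refine ⟨hn.1, ?_⟩
  nlinarith

/-- sums over sets of primes -/
lemma KO_harm (X : ℕ) : ∀ M : ℕ,
    ∑ T ∈ KO_T X, (M : ℝ) ^ #T / pr T ≤ (1 + Real.log X) ^ M := by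
  intro M
  have hinj : ∀ T ∈ KO_T X, ∀ T' ∈ KO_T X, pr T = pr T' → T = T' := by
    intro T hT T' hT' e
    rw [← Nat.primeFactors_prod (KO_T_prime hT), ← Nat.primeFactors_prod (KO_T_prime hT')]
    exact congrArg _ e
  have hone : ∑ T ∈ KO_T X, 1 / (pr T : ℝ) ≤ 1 + Real.log X := by
    have h1 : ∑ T ∈ KO_T X, 1 / (pr T : ℝ) = ∑ d ∈ (KO_T X).image pr, 1 / (d : ℝ) := by
      rw [sum_image hinj]
    have hsub : (KO_T X).image pr ⊆ Icc 1 X := by
      intro d hd
      rw [mem_image] at hd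
      obtain ⟨T, hT, rfl⟩ := hd
      rw [mem_Icc]
      refine ⟨KO_pr_pos (KO_T_prime hT), ?_⟩
      rw [KO_T, mem_filter] at hT
      exact hT.2
    rw [h1]
    refine (sum_le_sum_of_subset_of_nonneg hsub fun _ _ _ => by positivity).trans ?_
    have h2 := harmonic_le_one_add_log X
    rw [harmonic_eq_sum_Icc] at h2
    push_cast at h2
    simpa [one_div] using h2
  induction M with
  | zero =>
    rw [pow_zero]
    have hempty : (∅ : Finset ℕ) ∈ KO_T X ∨ (∅ : Finset ℕ) ∉ KO_T X := em _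
    calc ∑ T ∈ KO_T X, ((0 : ℕ) : ℝ) ^ #T / pr T
        ≤ ∑ T ∈ KO_T X, if T = ∅ then (1 : ℝ) else 0 := by
          refine sum_le_sum fun T _ => ?_
          by_cases h : T = ∅
          · subst h; simp [pr]
          · rw [if_neg h, Nat.cast_zero, zero_pow (by simpa [card_eq_zero] using h), zero_div]
      _ ≤ 1 := by
          rw [sum_ite_eq']
          split_ifs <;> norm_num
  | succ M ih =>
    have hlog : 0 ≤ 1 + Real.log X := by
      rcases Nat.eq_zero_or_pos X with h | h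
      · subst h; simp
      · have : 0 ≤ Real.log X := Real.log_natCast_nonneg X
        linarith
    have hprod : ∀ T ∈ KO_T X, ((M + 1 : ℕ) : ℝ) ^ #T / pr T
        = ∑ U ∈ T.powerset, ((M : ℝ) ^ #U / pr U) * (1 / pr (T \ U)) := by
      intro T hT
      have h1 := sum_pow_mul_eq_add_pow (M : ℝ) 1 T
      have h2 : ((M + 1 : ℕ) : ℝ) = (M : ℝ) + 1 := by push_cast; ring
      rw [h2, ← h1, sum_div]
      refine sum_congr rfl fun U hU => ?_
      rw [mem_powerset] at hU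
      have h3 : (pr T : ℝ) = pr U * pr (T \ U) := by
        have : pr T = pr U * pr (T \ U) := by
          unfold pr
          rw [mul_comm]; exact (prod_sdiff hU).symm
        exact_mod_cast this
      rw [h3, one_pow, mul_one, div_mul_div_comm, mul_one]
    rw [sum_congr rfl hprod]
    calc ∑ T ∈ KO_T X, ∑ U ∈ T.powerset, ((M : ℝ) ^ #U / pr U) * (1 / pr (T \ U))
        = ∑ x ∈ (KO_T X).sigma fun T => T.powerset,
            ((M : ℝ) ^ #x.2 / pr x.2) * (1 / pr (x.1 \ x.2)) := by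
          rw [sum_sigma]
      _ = ∑ y ∈ ((KO_T X).sigma fun T => T.powerset).image fun x => (x.2, x.1 \ x.2),
            ((M : ℝ) ^ #y.1 / pr y.1) * (1 / pr y.2) := by
          rw [sum_image]
          rintro ⟨T, U⟩ h ⟨T', U'⟩ h' e
          simp only [mem_coe, mem_sigma, mem_powerset] at h h'
          simp only [Prod.mk.injEq] at e
          obtain ⟨e1, e2⟩ := e
          subst e1
          have : T = T' := by
            rw [← sdiff_union_of_subset h.2, ← sdiff_union_of_subset h'.2, e2]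
          subst this
          rfl
      _ ≤ ∑ y ∈ KO_T X ×ˢ KO_T X, ((M : ℝ) ^ #y.1 / pr y.1) * (1 / pr y.2) := by
          refine sum_le_sum_of_subset_of_nonneg ?_ fun _ _ _ => by positivity
          intro y hy
          rw [mem_image] at hy
          obtain ⟨⟨T, U⟩, h, rfl⟩ := hy
          simp only [mem_sigma, mem_powerset] at h
          have hTp := KO_T_prime h.1
          have hsub : ∀ V ⊆ T, V ∈ KO_T X := by
            intro V hV
            have hT := h.1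
            rw [KO_T, mem_filter, mem_powerset] at hT ⊢
            refine ⟨hV.trans hT.1, ?_⟩
            refine le_trans ?_ hT.2
            exact prod_le_prod_of_subset_of_one_le' hV fun l hl _ => (hTp l hl).one_le
          rw [mem_product]
          exact ⟨hsub U h.2, hsub _ sdiff_subset⟩
      _ = (∑ T ∈ KO_T X, (M : ℝ) ^ #T / pr T) * ∑ T ∈ KO_T X, 1 / (pr T : ℝ) := by
          rw [sum_mul_sum, sum_product]
      _ ≤ (1 + Real.log X) ^ M * (1 + Real.log X) :=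
          mul_le_mul ih hone (sum_nonneg fun _ _ => by positivity) (by positivity)
      _ = (1 + Real.log X) ^ (M + 1) := by ring

/-- **KO** -/
theorem KO (hRT : RT_stmt) : KO_stmt := by
  intro K₀
  obtain ⟨-, -, -, hRT4, -⟩ := hRT
  set K : ℕ := K₀ + 1 with hKdef
  have hK : 1 ≤ K := by omega
  set M : ℕ := 2 * K ^ 5 with hM
  have hKr : (1 : ℝ) ≤ K := by exact_mod_cast hK
  refine ⟨M + 1, ⌈Real.exp (2 * (K : ℝ) ^ 4 * 2 ^ M + 1)⌉₊ + 2, fun X hX => ?_⟩
  have hX2 : 2 ≤ X := by omega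
  have hXr : Real.exp (2 * (K : ℝ) ^ 4 * 2 ^ M + 1) ≤ X := by
    refine (Nat.le_ceil _).trans ?_
    exact_mod_cast (by omega : ⌈Real.exp (2 * (K : ℝ) ^ 4 * 2 ^ M + 1)⌉₊ ≤ X)
  have hlog : 2 * (K : ℝ) ^ 4 * 2 ^ M + 1 ≤ Real.log X := by
    rw [Real.le_log_iff_exp_le (by positivity)]
    exact hXr
  have hlog1 : 1 ≤ Real.log X := by
    have : 0 ≤ 2 * (K : ℝ) ^ 4 * 2 ^ M := by positivity
    linarith
  have hcountT : ∀ T ∈ KO_T X, (#((Icc 1 X).filter fun n => dv (pr T) n) : ℝ)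
      ≤ 2 ^ #T * (2 * (X / pr T)) := by
    intro T hT
    have hTp := KO_T_prime hT
    have hpos := KO_pr_pos hTp
    have hsq : Squarefree (pr T) := by
      unfold pr
      refine Finset.squarefree_prod_of_pairwise_isCoprime ?_ fun p hp => (hTp p hp).squarefree
      intro p hp q hq hpq
      exact Nat.coprime_iff_isRelPrime.1 ((Nat.coprime_primes (hTp p hp) (hTp q hq)).2 hpq)
    have hpf : (pr T).primeFactors = T := Nat.primeFactors_prod hTp
    have h1 := KO_count (pr T) X hpos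
    have h2 := hRT4 (pr T) hsq
    rw [hpf] at h2
    have h3 : (#((Icc 1 X).filter fun n => dv (pr T) n) : ℝ) ≤ ((X / pr T + 1 : ℕ) : ℝ) * 2 ^ #T := by
      have h4 := h1.trans (Nat.mul_le_mul_left _ h2)
      exact_mod_cast h4
    have hle : pr T ≤ X := by
      rw [KO_T, mem_filter] at hT
      exact hT.2
    have hposr : (0 : ℝ) < pr T := by exact_mod_cast hpos
    have h5 : ((X / pr T + 1 : ℕ) : ℝ) ≤ 2 * (X / pr T) := by
      have h6 : ((X / pr T : ℕ) : ℝ) ≤ (X : ℝ) / pr T := Nat.cast_div_le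
      have h7 : (1 : ℝ) ≤ (X : ℝ) / pr T := by
        rw [le_div_iff₀ hposr, one_mul]
        exact_mod_cast hle
      push_cast
      linarith
    calc (#((Icc 1 X).filter fun n => dv (pr T) n) : ℝ) ≤ ((X / pr T + 1 : ℕ) : ℝ) * 2 ^ #T := h3
      _ ≤ (2 * (X / pr T)) * 2 ^ #T := mul_le_mul_of_nonneg_right h5 (by positivity)
      _ = 2 ^ #T * (2 * (X / pr T)) := by ring
  calc ∑ n ∈ Icc 1 X, (K₀ : ℝ) ^ (8 * n ^ 2 - 1).primeFactors.card
      ≤ ∑ n ∈ Icc 1 X, (K : ℝ) ^ (8 * n ^ 2 - 1).primeFactors.card := by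
        refine sum_le_sum fun n _ => pow_le_pow_left₀ (by positivity) ?_ _
        rw [hKdef]; push_cast; linarith
    _ ≤ ∑ n ∈ Icc 1 X, (K : ℝ) ^ 4 * ∑ T ∈ KO_T X with dv (pr T) n, ((K : ℝ) ^ 5) ^ #T :=
        sum_le_sum fun n hn => KO_point K X n hK hX2 hn
    _ = (K : ℝ) ^ 4 * ∑ T ∈ KO_T X, ∑ n ∈ Icc 1 X with dv (pr T) n, ((K : ℝ) ^ 5) ^ #T := by
        rw [← mul_sum]
        congr 1
        simp_rw [sum_filter]
        rw [sum_comm]
    _ = (K : ℝ) ^ 4 * ∑ T ∈ KO_T X,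
          (#((Icc 1 X).filter fun n => dv (pr T) n) : ℝ) * ((K : ℝ) ^ 5) ^ #T := by
        congr 1
        refine sum_congr rfl fun T _ => ?_
        rw [sum_const, nsmul_eq_mul]
    _ ≤ (K : ℝ) ^ 4 * ∑ T ∈ KO_T X, (2 ^ #T * (2 * (X / pr T))) * ((K : ℝ) ^ 5) ^ #T := by
        refine mul_le_mul_of_nonneg_left ?_ (by positivity)
        exact sum_le_sum fun T hT => mul_le_mul_of_nonneg_right (hcountT T hT) (by positivity)
    _ = 2 * (K : ℝ) ^ 4 * X * ∑ T ∈ KO_T X, (M : ℝ) ^ #T / pr T := by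
        rw [mul_sum, mul_sum]
        refine sum_congr rfl fun T _ => ?_
        have : (M : ℝ) = 2 * (K : ℝ) ^ 5 := by rw [hM]; push_cast; ring
        rw [this, mul_pow]
        ring
    _ ≤ 2 * (K : ℝ) ^ 4 * X * (1 + Real.log X) ^ M :=
        mul_le_mul_of_nonneg_left (KO_harm X M) (by positivity)
    _ ≤ 2 * (K : ℝ) ^ 4 * X * (2 * Real.log X) ^ M :=
        mul_le_mul_of_nonneg_left (pow_le_pow_left₀ (by linarith) (by linarith) _) (by positivity)
    _ = X * Real.log X ^ M * (2 * (K : ℝ) ^ 4 * 2 ^ M) := by rw [mul_pow]; ring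
    _ ≤ X * Real.log X ^ M * Real.log X := mul_le_mul_of_nonneg_left (by linarith) (by positivity)
    _ = X * Real.log X ^ (M + 1) := by ring

end GD
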